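import Pool.Agent.Q61.NF.Gen

/-!
# Functions whose norm is a constant times a power, over finite extensions of the base field
-/

set_option autoImplicit false
set_option maxHeartbeats 400000
set_option linter.unusedSectionVars false

namespace Pool.Agent.Q61.NF

open Pool.Agent.W620.SC Pool.Agent.W623.SecC Pool.Agent.TH120.Sec Polynomial IntermediateField
open Pool.Agent.TH377.LocG Pool.Agent.TH377.Loc Pool.Agent.TH377.NC IsDedekindDomain NumberField

universe u v w x y z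

/-- the function attached to an embedding -/
noncomputable def val {E : Type x} {Ω : Type w} {F : Type v} [Field E] [Field Ω] [Field F]
    [Algebra F Ω] (s : E →+* Ω) {r : ℕ} (A : Fin r → E) (x : Fin r → F) : Ω :=
  ∑ j, s (A j) * algebraMap F Ω (x j)

/-- The conditions on the function `h = ∑ A_j x_j`: its conjugates are not zero, its norm is `a yⁿ`, and
the quotient of two conjugates has an order divisible by `n` at the places of `U`. -/
def Cond {K : Type u} {E : Type x} {F : Type v} (Ω : Type w) [Field K] [Field E] [Algebra K E]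
    [FiniteDimensional K E] [Field F] [Field Ω] [Algebra F Ω] [Algebra K Ω]
    (U : Set (ValuationSubring F)) (n : ℕ) (a : K) {r : ℕ} (A : Fin r → E) (x : Fin r → F)
    (y : F) : Prop :=
  (∀ σ : E →ₐ[K] Ω, val (σ : E →+* Ω) A x ≠ 0) ∧
  (∏ σ : E →ₐ[K] Ω, val (σ : E →+* Ω) A x = algebraMap K Ω a * algebraMap F Ω y ^ n) ∧
  ∀ σ τ : E →ₐ[K] Ω, OrdDiv Ω U n (val (σ : E →+* Ω) A x) (val (τ : E →+* Ω) A x)

lemma OrdDiv.of_dvd {F : Type v} {Ω : Type w} [Field F] [Field Ω] [Algebra F Ω]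
    {U : Set (ValuationSubring F)} {ℓ n : ℕ} (h : ℓ ∣ n) {a b : Ω} (hab : OrdDiv Ω U n a b) :
    OrdDiv Ω U ℓ a b := by
  intro W hW
  obtain ⟨q, rfl⟩ := h
  obtain ⟨t, ht0, h1, h2⟩ := hab W hW
  refine ⟨t ^ q, pow_ne_zero _ ht0, ?_, ?_⟩
  · rw [map_pow, ← pow_mul, mul_comm q ℓ]
    exact h1
  · rw [map_pow, ← pow_mul, mul_comm q ℓ]
    exact h2

/-- the local theorem applied to an extension `L` -/
theorem of_data {K : Type u} {E : Type x} {L : Type y} [Field K] [CharZero K] [Field E]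
    [Algebra K E] [FiniteDimensional K E] [Field L] [Algebra K L] (pb : PowerBasis K E)
    (ℓ : ℕ) (hℓ0 : 0 < ℓ) {B : Type y} [CommRing B] [IsDomain B] [IsDiscreteValuationRing B]
    [Algebra B L] [IsFractionRing B L] (f : B[X]) (hf : f.Monic)
    (hfL : f.map (algebraMap B L) = (minpoly K pb.gen).map (algebraMap K L))
    (hfs : (f.map (IsLocalRing.residue B)).Separable)
    (hfd : FactorDiv (Nat.gcd 2 ℓ * ℓ) (f.map (IsLocalRing.residue B)))
    (ϖ t : B) (m' : ℤ) (hϖ : Irreducible ϖ) (ht : IsUnit t) (hm' : ¬ (ℓ : ℤ) ∣ m') (a : K)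
    (haL : algebraMap K L a = algebraMap B L t * algebraMap B L ϖ ^ m')
    (F : Type v) (Ω : Type w) [Field F] [Field Ω] [Algebra L F] [Algebra F Ω] [Algebra L Ω]
    [Algebra K Ω] [IsScalarTower L F Ω] [IsScalarTower K L Ω] [IsAlgClosure F Ω]
    (U : Set (ValuationSubring F)) (hU : ∀ O ∈ U, ∀ c : L, algebraMap L F c ∈ O)
    (n : ℕ) (hn : ℓ ∣ n) {r : ℕ} (A : Fin r → E) (x : Fin r → F) (y : F)
    (h : Cond Ω U n a A x y) : IsEmpty (GSection L F Ω U) := by
  classical
  obtain ⟨h1, h2, h3⟩ := h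
  have hcz : CharZero L := charZero_of_injective_algebraMap (algebraMap K L).injective
  have hcl : IsAlgClosed Ω := IsAlgClosure.isAlgClosed F
  have halg : Algebra.IsAlgebraic F Ω := IsAlgClosure.isAlgebraic
  choose P hP using fun j => pb.exists_eq_aeval' (A j)
  have hA : A = fun j => aeval pb.gen (P j) := funext hP
  have hval : ∀ σ : E →ₐ[K] Ω, val (σ : E →+* Ω) A x =
      ∑ j, aeval (σ pb.gen) ((P j).map (algebraMap K L)) * algebraMap F Ω (x j) := by
    intro σ
    unfold val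
    refine Finset.sum_congr rfl fun j _ => ?_
    rw [aeval_map_algebraMap, hA]
    congr 1
    exact emb_val pb σ (P j)
  have hroot : ∀ θ : Ω, aeval θ (f.map (algebraMap B L)) = 0 → ∃ σ : E →ₐ[K] Ω, σ pb.gen = θ := by
    intro θ hθ
    rw [hfL, aeval_map_algebraMap] at hθ
    exact Pool.Agent.TH377.NC.exists_emb pb θ hθ
  obtain ⟨n', rfl⟩ := hn
  refine local_gen (A := B) (k := L) ℓ hℓ0 f hf hfs hfd ϖ hϖ
      (algebraMap K L a) t ht m' hm' haL U hU
      (fun j => (P j).map (algebraMap K L)) x (y ^ n') ?_ ?_ ?_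
  · intro θ hθ
    obtain ⟨σ, rfl⟩ := hroot θ hθ
    rw [← hval]
    exact h1 σ
  · intro θ θ' hθ hθ'
    obtain ⟨σ, rfl⟩ := hroot θ hθ
    obtain ⟨τ, rfl⟩ := hroot θ' hθ'
    rw [← hval, ← hval]
    exact (h3 σ τ).of_dvd (Dvd.intro n' rfl)
  · rw [← IsScalarTower.algebraMap_apply K L Ω, map_pow, ← pow_mul, mul_comm n' ℓ, ← h2, hfL,
      Polynomial.map_map, ← IsScalarTower.algebraMap_eq K L Ω]
    simp only [hval]
    exact prod_emb pb (B := Ω) fun θ => ∑ j, aeval θ ((P j).map (algebraMap K L)) *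
      algebraMap F Ω (x j)

/-- disjoint divisors -/
theorem ordDiv_of_disjoint {K : Type u} {E : Type x} {F : Type v} {Ω : Type w} [Field K] [Field E]
    [Algebra K E] [FiniteDimensional K E] [Field F] [Field Ω] [Algebra F Ω] [Algebra K Ω]
    (U : Set (ValuationSubring F)) (n : ℕ) (hn : 0 < n) (a : K) (ha : a ≠ 0) {r : ℕ}
    (A : Fin r → E) (x : Fin r → F) (y : F)
    (hUK : ∀ W : ValuationSubring Ω, W.comap (algebraMap F Ω) ∈ U → ∀ c : K, algebraMap K Ω c ∈ W)
    (h0 : ∀ σ : E →ₐ[K] Ω, val (σ : E →+* Ω) A x ≠ 0)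
    (h2 : ∏ σ : E →ₐ[K] Ω, val (σ : E →+* Ω) A x = algebraMap K Ω a * algebraMap F Ω y ^ n)
    (h3 : ∀ W : ValuationSubring Ω, W.comap (algebraMap F Ω) ∈ U → ∀ σ τ : E →ₐ[K] Ω, σ ≠ τ →
      IsU W (val (σ : E →+* Ω) A x) ∨ IsU W (val (τ : E →+* Ω) A x)) :
    ∀ σ τ : E →ₐ[K] Ω, OrdDiv Ω U n (val (σ : E →+* Ω) A x) (val (τ : E →+* Ω) A x) := by
  classical
  have haΩ : algebraMap K Ω a ≠ 0 := (_root_.map_ne_zero _).2 ha
  have hyn : algebraMap F Ω y ^ n ≠ 0 := by
    intro h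
    rw [h, mul_zero] at h2
    exact Finset.prod_ne_zero_iff.2 (fun τ _ => h0 τ) h2
  have hy0 : y ≠ 0 := by
    rintro rfl
    rw [map_zero, zero_pow hn.ne'] at hyn
    exact hyn rfl
  have hone : ∀ W : ValuationSubring Ω, IsU W (1 : Ω) := fun W =>
    ⟨one_ne_zero, one_mem _, by rw [inv_one]; exact one_mem _⟩
  -- the quotient of a function with zeros or poles and `a yⁿ`
  have key : ∀ W : ValuationSubring Ω, W.comap (algebraMap F Ω) ∈ U → ∀ σ : E →ₐ[K] Ω,
      ¬ IsU W (val (σ : E →+* Ω) A x) →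
      IsU W (val (σ : E →+* Ω) A x / algebraMap F Ω y ^ n) := by
    intro W hW σ hσ
    have hother : ∀ τ : E →ₐ[K] Ω, τ ≠ σ → IsU W (val (τ : E →+* Ω) A x) := fun τ hτ =>
      (h3 W hW τ σ hτ).resolve_right hσ
    have hprod : IsU W (∏ τ ∈ Finset.univ.erase σ, val (τ : E →+* Ω) A x) := by
      refine Finset.prod_induction _ (fun z => IsU W z) (fun a b ha hb => ha.mul hb) (hone W) ?_
      intro τ hτ
      exact hother τ (Finset.ne_of_mem_erase hτ)
    have h4 := Finset.mul_prod_erase Finset.univ (fun τ : E →ₐ[K] Ω => val (τ : E →+* Ω) A x)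
      (Finset.mem_univ σ)
    have haU : IsU W (algebraMap K Ω a) :=
      ⟨haΩ, hUK W hW a, by rw [← map_inv₀]; exact hUK W hW _⟩
    have h5 : val (σ : E →+* Ω) A x / algebraMap F Ω y ^ n =
        algebraMap K Ω a / ∏ τ ∈ Finset.univ.erase σ, val (τ : E →+* Ω) A x := by
      rw [div_eq_div_iff hyn hprod.1]
      rw [← h2]
      exact h4
    rw [h5]
    exact haU.div hprod
  have fin : ∀ (W : ValuationSubring Ω) (z u : Ω), IsU W (z / u) → z / u ∈ W ∧ u / z ∈ W := by
    intro W z u h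
    refine ⟨h.2.1, ?_⟩
    have := h.2.2
    rwa [inv_div] at this
  intro σ τ W hW
  by_cases hst : σ = τ
  · subst hst
    refine ⟨1, one_ne_zero, ?_⟩
    apply fin
    rw [map_one, one_pow, div_one, div_self (h0 σ)]
    exact hone W
  by_cases hσ : IsU W (val (σ : E →+* Ω) A x)
  · by_cases hτ : IsU W (val (τ : E →+* Ω) A x)
    · refine ⟨1, one_ne_zero, ?_⟩
      apply fin
      rw [map_one, one_pow, div_one]
      exact hσ.div hτ
    · refine ⟨y⁻¹, inv_ne_zero hy0, ?_⟩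
      apply fin
      have h5 : val (σ : E →+* Ω) A x / val (τ : E →+* Ω) A x / algebraMap F Ω y⁻¹ ^ n =
          val (σ : E →+* Ω) A x / (val (τ : E →+* Ω) A x / algebraMap F Ω y ^ n) := by
        rw [map_inv₀, inv_pow, div_inv_eq_mul, div_div_eq_mul_div, div_mul_eq_mul_div]
      rw [h5]
      exact hσ.div (key W hW τ hτ)
  · have hτ : IsU W (val (τ : E →+* Ω) A x) := (h3 W hW σ τ hst).resolve_left hσ
    refine ⟨y, hy0, ?_⟩
    apply fin
    rw [div_right_comm]
    exact (key W hW σ hσ).div hτ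

end Pool.Agent.Q61.NF
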