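import Pool.Agent.TH377.NC.Gen

/-!
# Functions whose norm is a constant times a power: the local theorem
-/

set_option autoImplicit false
set_option maxHeartbeats 400000
set_option linter.unusedSectionVars false

namespace Pool.Agent.Q61.NF

open Pool.Agent.W620.SC Pool.Agent.W623.SecC Pool.Agent.TH120.Sec Polynomial IntermediateField
open Pool.Agent.TH377.LocG Pool.Agent.TH377.Loc Pool.Agent.TH377.NC

universe u v w x y z

/-- the quotient of `a` and `b` has an order divisible by `n` at the places of `U` -/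
def OrdDiv {F : Type v} (Ω : Type w) [Field F] [Field Ω] [Algebra F Ω]
    (U : Set (ValuationSubring F)) (n : ℕ) (a b : Ω) : Prop :=
  ∀ W : ValuationSubring Ω, W.comap (algebraMap F Ω) ∈ U → ∃ t : F, t ≠ 0 ∧
    a / b / algebraMap F Ω t ^ n ∈ W ∧ algebraMap F Ω t ^ n / (a / b) ∈ W

/-- no section over `F_U` -/
theorem galF {k : Type u} {F : Type v} {Ω : Type w} [Field k] [Field F] [Field Ω]
    [Algebra k F] [Algebra F Ω] [Algebra k Ω] [IsScalarTower k F Ω] [CharZero k] [IsAlgClosed Ω]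
    [Algebra.IsAlgebraic F Ω]
    (U : Set (ValuationSubring F)) (hU : ∀ O ∈ U, ∀ c : k, algebraMap k F c ∈ O)
    (G : GSection k F Ω U) (V : ValuationSubring (algebraicClosure k Ω))
    (S : IntermediateField k (algebraicClosure k Ω)) (ϖ : k) (ϖ0 : ϖ ≠ 0)
    (ϖn : algebraMap k (algebraicClosure k Ω) ϖ ∈ V.nonunits)
    (tame : ∀ c ∈ S, c ≠ 0 → ∃ j : ℤ, IsU V (c / algebraMap k (algebraicClosure k Ω) ϖ ^ j))
    (ℓ : ℕ) (hℓ0 : 0 < ℓ)
    {X : Type*} [Fintype X] (θ : X → algebraicClosure k Ω) (e : X → ℕ) {Y : Type*} (cl : X → Y)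
    (htr : ∀ x x', cl x = cl x' → ∃ φ π, GoodAut θ e cl S V φ π ∧ π x = x')
    (hcard : ∀ x, Nat.gcd 2 ℓ * ℓ ∣ Nat.card {x' // cl x' = cl x})
    {r : ℕ} (α : X → Fin r → algebraicClosure k Ω) (hαS : ∀ i j, α i j ∈ S)
    (hαG : ∀ φ π, GoodAut θ e cl S V φ π → ∀ i j, φ (α i j) = α (π i) j)
    (x : Fin r → F) (y : F)
    (c : algebraicClosure k Ω) (hcS : c ∈ S) (m : ℤ)
    (hm : ¬ (ℓ : ℤ) ∣ m) (hc : IsU V (c / algebraMap k (algebraicClosure k Ω) ϖ ^ m))
    (hne : ∀ i, ∑ j, (α i j : Ω) * algebraMap F Ω (x j) ≠ 0)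
    (hdiv : ∀ i i', OrdDiv Ω U ℓ (∑ j, (α i j : Ω) * algebraMap F Ω (x j))
      (∑ j, (α i' j : Ω) * algebraMap F Ω (x j)))
    (hxy : (c : Ω) * algebraMap F Ω y ^ ℓ = ∏ i, ∑ j, (α i j : Ω) * algebraMap F Ω (x j)) :
    False := by
  have hac : IsAlgClosure k (algebraicClosure k Ω) := inferInstance
  have hA : IsAlgClosed (algebraicClosure k Ω) := hac.1
  set j : algebraicClosure k Ω →+* Ω := algebraMap (algebraicClosure k Ω) Ω with hj
  set x' : Fin r → Ω := fun i => algebraMap F Ω (x i) with hx'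
  -- the functions
  set D := mkT U hU G V S ϖ ϖ0 ϖn tame 1 (fun _ => Iff.rfl) (fun _ => Iff.rfl) with hD
  set lam : X → unramified F Ω U := fun i =>
    ∑ l, D.ι (α i l) * algebraMap F (unramified F Ω U) (x l) with hlam
  have hval : ∀ i, ((lam i : unramified F Ω U) : Ω) = ∑ l, j (α i l) * x' l := by
    intro i
    change algebraMap (unramified F Ω U) Ω (lam i) = _
    rw [hlam, map_sum]
    exact Finset.sum_congr rfl fun l _ => map_mul (algebraMap (unramified F Ω U) Ω) _ _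
  have hfix : ∀ (σ) (z : F), D.s σ (algebraMap F (unramified F Ω U) z) =
      algebraMap F (unramified F Ω U) z := fun σ z => (G.toHom σ).commutes z
  have hGood : ∀ φ π, GoodAut θ e cl S V φ π → ∀ i, D.s φ (lam i) = lam (π i) := by
    intro φ π hφ i
    rw [hlam, map_sum]
    refine Finset.sum_congr rfl fun l _ => ?_
    rw [map_mul, hfix, D.hι, hαG φ π hφ]
  have hmem : ∀ i, lam i ∈ D.RS := fun i => sum_mem fun l _ =>
    mul_mem (D.ι_mem (hαS i l)) (fun σ _ => hfix σ _)
  have hne0 : ∀ i, lam i ≠ 0 := by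
    intro i hi
    apply hne i
    have h2 := hval i
    rw [hi] at h2
    exact h2.symm
  refine absL D ℓ hℓ0 θ e cl ⟨ϖ, rfl⟩ htr hcard lam hne0 hmem hGood
    (algebraMap F (unramified F Ω U) y)
    (fun σ => hfix σ _) c hcS m hm hc ?_ ?_
  · apply (algebraMap (unramified F Ω U) Ω).injective
    have hval' : ∀ i, algebraMap (unramified F Ω U) Ω (lam i) = ∑ l, j (α i l) * x' l := hval
    rw [map_mul, map_pow, map_prod]
    simp only [hval']
    exact hxy
  · intro i i'
    refine exists_root_unramified (k := k) U hU hℓ0 _ ?_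
    intro _ W hW
    have hv : ((lam i / lam i' : unramified F Ω U) : Ω) =
        (∑ l, j (α i l) * x' l) / (∑ l, j (α i' l) * x' l) := by
      rw [← hval, ← hval]
      exact map_div₀ (algebraMap (unramified F Ω U) Ω) _ _
    rw [hv]
    obtain ⟨t, ht0, h3, h4⟩ := hdiv i i' W hW
    refine ⟨algebraMap F Ω t, IntermediateField.algebraMap_mem _ _,
      (_root_.map_ne_zero _).2 ht0, h3, h4⟩

section

variable {A k : Type u} [CommRing A] [IsDomain A]
    [IsDiscreteValuationRing A] [Field k] [Algebra A k]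
    [IsFractionRing A k] [CharZero k]
    (ℓ : ℕ) (hℓ : 0 < ℓ) (f : A[X]) (hf : f.Monic)
    (hs : (f.map (IsLocalRing.residue A)).Separable)
    (hσ : FactorDiv (Nat.gcd 2 ℓ * ℓ) (f.map (IsLocalRing.residue A)))
    (ϖ : A) (hϖ : Irreducible ϖ) (a : k) (t : A) (ht : IsUnit t) (m : ℤ) (hm : ¬ (ℓ : ℤ) ∣ m)
    (ha : a = algebraMap A k t * algebraMap A k ϖ ^ m)

include hf hs hσ hϖ ht ha hℓ hm

/-- **The local theorem**, sections. -/
theorem local_gen {F : Type v} {Ω : Type w} [Field F] [Field Ω] [Algebra k F] [Algebra F Ω]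
    [Algebra k Ω] [IsScalarTower k F Ω] [IsAlgClosed Ω] [Algebra.IsAlgebraic F Ω]
    (U : Set (ValuationSubring F)) (hU : ∀ O ∈ U, ∀ c : k, algebraMap k F c ∈ O)
    {r : ℕ} (P : Fin r → k[X]) (x : Fin r → F) (y : F)
    (hne : ∀ θ : Ω, aeval θ (f.map (algebraMap A k)) = 0 →
      ∑ j, aeval θ (P j) * algebraMap F Ω (x j) ≠ 0)
    (hdiv : ∀ θ θ' : Ω, aeval θ (f.map (algebraMap A k)) = 0 →
      aeval θ' (f.map (algebraMap A k)) = 0 →
      OrdDiv Ω U ℓ (∑ j, aeval θ (P j) * algebraMap F Ω (x j))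
        (∑ j, aeval θ' (P j) * algebraMap F Ω (x j)))
    (hxy : algebraMap k Ω a * algebraMap F Ω y ^ ℓ =
      (((f.map (algebraMap A k)).map (algebraMap k Ω)).roots.map fun θ =>
        ∑ j, aeval θ (P j) * algebraMap F Ω (x j)).prod) :
    IsEmpty (GSection k F Ω U) := by
  classical
  refine ⟨fun G => ?_⟩
  have hac : IsAlgClosure k (algebraicClosure k Ω) := inferInstance
  have hkb : IsAlgClosed (algebraicClosure k Ω) := hac.1
  let _ : Algebra A (algebraicClosure k Ω) :=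
    ((algebraMap k (algebraicClosure k Ω)).comp (algebraMap A k)).toAlgebra
  have hst : IsScalarTower A k (algebraicClosure k Ω) :=
    IsScalarTower.of_algebraMap_eq (fun _ => rfl)
  have hcz : CharZero Ω := charZero_of_injective_algebraMap (algebraMap k Ω).injective
  obtain ⟨V, S, X, _, θ, e', cl, hϖ0, hpn, htame, hθS, hθinj, hθroot, htr, hcard, hcu, hroots⟩ :=
    lin_data (kb := algebraicClosure k Ω) ℓ f hf hs hσ ϖ hϖ a t ht m ha
  have hr := hroots (algebraMap (algebraicClosure k Ω) Ω)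
  rw [← IsScalarTower.algebraMap_eq k (algebraicClosure k Ω) Ω] at hr
  have hcoe : ∀ i j, ((aeval (θ i) (P j) : algebraicClosure k Ω) : Ω) =
      aeval ((θ i : algebraicClosure k Ω) : Ω) (P j) := fun i j =>
    (aeval_algebraMap_apply Ω (θ i) (P j)).symm
  have hrootΩ : ∀ i, aeval ((θ i : algebraicClosure k Ω) : Ω) (f.map (algebraMap A k)) = 0 := by
    intro i
    have h1 := aeval_algebraMap_apply Ω (θ i) (f.map (algebraMap A k))
    rw [hθroot, map_zero] at h1
    exact h1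
  refine galF U hU G V S (algebraMap A k ϖ) hϖ0 hpn htame ℓ hℓ θ e' cl htr hcard
    (fun i j => aeval (θ i) (P j)) ?_ ?_ x y
    (algebraMap k (algebraicClosure k Ω) a) (S.algebraMap_mem _) m hm hcu ?_ ?_ ?_
  · intro i j
    have h1 : aeval ((⟨θ i, hθS i⟩ : S) : algebraicClosure k Ω) (P j) =
        ((aeval (⟨θ i, hθS i⟩ : S) (P j) : S) : algebraicClosure k Ω) :=
      IntermediateField.aeval_coe S (⟨θ i, hθS i⟩ : S) (P j)
    change aeval ((⟨θ i, hθS i⟩ : S) : algebraicClosure k Ω) (P j) ∈ S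
    rw [h1]
    exact Subtype.mem _
  · intro φ π hφ i j
    have h1 := aeval_algHom_apply (φ : algebraicClosure k Ω →ₐ[k] algebraicClosure k Ω) (θ i) (P j)
    have h2 : (φ : algebraicClosure k Ω →ₐ[k] algebraicClosure k Ω) (θ i) = θ (π i) := hφ.2.2.1 i
    rw [h2] at h1
    exact h1.symm
  · intro i
    simp only [hcoe]
    exact hne _ (hrootΩ i)
  · intro i i'
    simp only [hcoe]
    exact hdiv _ _ (hrootΩ i) (hrootΩ i')
  · change algebraMap k Ω a * _ = _
    rw [hxy, hr, Multiset.map_map]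
    change ∏ i, _ = _
    refine Finset.prod_congr rfl fun i _ => Finset.sum_congr rfl fun j _ => ?_
    congr 1
    exact aeval_algebraMap_apply Ω (θ i) (P j)

end

end Pool.Agent.Q61.NF
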